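import Mathlib

/-!
# The random walk in a random unit-arrow drift field never homogenizes

The quenched kernel of a walk in a static random environment has local fluctuations: the ratio of
the probability of being at `x` at time `n + 1` and of the probabilities of being at the
neighbours of `x` at time `n` depends on the arrows at these neighbours. So the quenched kernel is
not asymptotically equal to any nonrandom kernel, and condition (ii) in the definition of
homogenization fails for all `d ≥ 1` and all `ε ∈ (0, 1/(2d))`.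
-/

set_option autoImplicit false

open MeasureTheory ProbabilityTheory Filter Topology
open scoped ENNReal

namespace Pool.Agent.Results.MP_31ab2b_pr.NeverHomogenizes

/-- Unit arrows of `ℤ^d`: a coordinate and a sign. -/
abbrev Arrow (d : ℕ) := Fin d × Bool

/-- The unit vector of an arrow: `e_i` for `(i, true)` and `-e_i` for `(i, false)`. -/
def vec {d : ℕ} (a : Arrow d) : Fin d → ℤ := Pi.single a.1 (if a.2 then 1 else -1)

/-- Environments: an arrow at every site of `ℤ^d`. -/
abbrev Env (d : ℕ) := (Fin d → ℤ) → Arrow d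

/-- The law of the environment: independent arrows, each uniform on the `2d` arrows. -/
noncomputable def envLaw (d : ℕ) [NeZero d] : Measure (Env d) :=
  Measure.infinitePi fun _ : Fin d → ℤ => (PMF.uniformOfFintype (Arrow d)).toMeasure

/-- The transition probability `p(x, z, ω)` from `x` to `z`: it is `1 - (2d-1) ε` if `x - z` is
the arrow at `x`, it is `ε` if `x - z` is another unit vector, and `0` otherwise. -/
noncomputable def trans (d : ℕ) (ε : ℝ) (ω : Env d) (x z : Fin d → ℤ) : ℝ :=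
  open Classical in
  if x - z = vec (ω x) then 1 - (2 * d - 1) * ε
  else if ∃ a : Arrow d, x - z = vec a then ε else 0

/-- The quenched kernel `p_ω(n, x)`: the probability that the chain started at `0` is at `x` at
time `n`. -/
noncomputable def quenched (d : ℕ) (ε : ℝ) (ω : Env d) : ℕ → (Fin d → ℤ) → ℝ
  | 0, x => if x = 0 then 1 else 0
  | n + 1, z => ∑' x, quenched d ε ω n x * trans d ε ω x z

/-- The averaged kernel `m₁(n, x)`. -/
noncomputable def averaged (d : ℕ) [NeZero d] (ε : ℝ) (n : ℕ) (x : Fin d → ℤ) : ℝ :=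
  ∫ ω, quenched d ε ω n x ∂(envLaw d)

/-- The Euclidean norm of a lattice point. -/
noncomputable def enorm' {d : ℕ} (x : Fin d → ℤ) : ℝ := Real.sqrt (∑ i, (x i : ℝ) ^ 2)

/-- Condition (i) with the constant `σ² = v`: under the averaged law `X_n / √n` converges in law to
the centred Gaussian with covariance `v I_d`. -/
def AveragedCLT (d : ℕ) [NeZero d] (ε : ℝ) (v : NNReal) : Prop :=
  ∀ f : BoundedContinuousFunction (Fin d → ℝ) ℝ,
    Tendsto (fun n : ℕ => ∑' x : Fin d → ℤ, averaged d ε n x *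
      f (fun i => (x i : ℝ) / Real.sqrt n)) atTop
      (𝓝 (∫ y, f y ∂(Measure.pi fun _ : Fin d => gaussianReal 0 v)))

/-- Condition (ii) with a general nonrandom kernel `m` in the place of `m₁` (the supremum still
extends over the sites with `m₁(n, x) > 0`): for all `C, δ > 0`,
`sup {μ(|p_ω(n,x)/m(n,x) - 1| > δ) : |x| ≤ C √n, m₁(n,x) > 0} → 0`. -/
def RatioToOne (d : ℕ) [NeZero d] (ε : ℝ) (m : ℕ → (Fin d → ℤ) → ℝ) : Prop :=
  ∀ C : ℝ, 0 < C → ∀ δ : ℝ, 0 < δ →
    Tendsto (fun n : ℕ => ⨆ x : {x : Fin d → ℤ // enorm' x ≤ C * Real.sqrt n ∧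
      0 < averaged d ε n x}, envLaw d {ω | δ < |quenched d ε ω n x / m n x - 1|}) atTop (𝓝 0)

/-- The model homogenizes: conditions (i) and (ii). -/
def Homogenizes (d : ℕ) [NeZero d] (ε : ℝ) : Prop :=
  (∃ v : NNReal, 0 < v ∧ AveragedCLT d ε v) ∧ RatioToOne d ε (averaged d ε)

variable {d : ℕ}

lemma vec_injective : Function.Injective (vec (d := d)) := by
  rintro ⟨i, s⟩ ⟨j, t⟩ h
  have hi : i = j := by
    by_contra hne
    have := congrFun h i
    simp only [vec, Pi.single_eq_same] at this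
    rw [Pi.single_eq_of_ne hne] at this
    split_ifs at this
    all_goals omega
  subst hi
  have := congrFun h i
  simp only [vec, Pi.single_eq_same] at this
  have hst : s = t := by
    cases s <;> cases t <;> simp_all
  rw [hst]

lemma vec_ne_zero (a : Arrow d) : vec a ≠ 0 := by
  intro h
  have := congrFun h a.1
  simp only [vec, Pi.single_eq_same, Pi.zero_apply] at this
  split_ifs at this <;> omega

/-- `trans` at a neighbour. -/
lemma trans_nbr (ε : ℝ) (ω : Env d) (z : Fin d → ℤ) (a : Arrow d) :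
    trans d ε ω (z + vec a) z = if ω (z + vec a) = a then 1 - (2 * d - 1) * ε else ε := by
  unfold trans
  have h1 : z + vec a - z = vec a := by abel
  rw [h1]
  by_cases h : ω (z + vec a) = a
  · rw [h]; simp
  · have : ¬ vec a = vec (ω (z + vec a)) := fun hh => h (vec_injective hh).symm
    rw [if_neg this, if_neg h, if_pos ⟨a, rfl⟩]

lemma trans_far (ε : ℝ) (ω : Env d) (x z : Fin d → ℤ) (h : ∀ a : Arrow d, x ≠ z + vec a) :
    trans d ε ω x z = 0 := by
  unfold trans
  have h1 : ∀ a : Arrow d, x - z ≠ vec a := by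
    intro a ha
    exact h a (by rw [← ha]; abel)
  rw [if_neg (h1 _), if_neg (by rintro ⟨a, ha⟩; exact h1 a ha)]

/-- The recursion as a finite sum. -/
lemma quenched_succ (ε : ℝ) (ω : Env d) (n : ℕ) (z : Fin d → ℤ) :
    quenched d ε ω (n + 1) z = ∑ a : Arrow d, quenched d ε ω n (z + vec a) *
      (if ω (z + vec a) = a then 1 - (2 * d - 1) * ε else ε) := by
  have hinj : Function.Injective (fun a : Arrow d => z + vec a) := by
    intro a b hab
    exact vec_injective (add_left_cancel hab)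
  rw [quenched]
  rw [tsum_eq_sum (s := Finset.univ.map ⟨fun a : Arrow d => z + vec a, hinj⟩)]
  · rw [Finset.sum_map]
    refine Finset.sum_congr rfl fun a _ => ?_
    simp only [Function.Embedding.coeFn_mk]
    rw [trans_nbr]
  · intro x hx
    rw [trans_far, mul_zero]
    intro a ha
    apply hx
    simp only [Finset.mem_map, Finset.mem_univ, true_and, Function.Embedding.coeFn_mk]
    exact ⟨a, ha.symm⟩

/-- `1 - (2d-1) ε ≥ ε`. -/
lemma eps_le [NeZero d] {ε : ℝ} (h1 : ε < 1 / (2 * d)) : ε ≤ 1 - (2 * d - 1) * ε := by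
  have hd : (0 : ℝ) < 2 * d := by
    have := Nat.pos_of_ne_zero (NeZero.ne d)
    positivity
  have : 2 * d * ε < 1 := by
    rw [lt_div_iff₀ hd] at h1
    linarith
  linarith

lemma quenched_nonneg [NeZero d] {ε : ℝ} (h0 : 0 < ε) (h1 : ε < 1 / (2 * d)) (ω : Env d) (n : ℕ) :
    ∀ z, 0 ≤ quenched d ε ω n z := by
  induction n with
  | zero => intro z; unfold quenched; split_ifs <;> norm_num
  | succ n ih =>
    intro z
    rw [quenched_succ]
    refine Finset.sum_nonneg fun a _ => mul_nonneg (ih _) ?_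
    have := eps_le h1
    split_ifs <;> linarith

lemma quenched_le [NeZero d] {ε : ℝ} (h0 : 0 < ε) (h1 : ε < 1 / (2 * d)) (ω : Env d) (n : ℕ) :
    ∀ z, quenched d ε ω n z ≤ (2 * d : ℝ) ^ n := by
  have hd1 : (1 : ℝ) ≤ d := by exact_mod_cast Nat.pos_of_ne_zero (NeZero.ne d)
  induction n with
  | zero => intro z; unfold quenched; split_ifs <;> norm_num
  | succ n ih =>
    intro z
    rw [quenched_succ]
    have : ∀ a : Arrow d, quenched d ε ω n (z + vec a) *
      (if ω (z + vec a) = a then 1 - (2 * d - 1) * ε else ε) ≤ (2 * d : ℝ) ^ n := by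
      intro a
      have hb : (if ω (z + vec a) = a then 1 - (2 * d - 1) * ε else ε) ≤ 1 := by
        split_ifs
        · nlinarith
        · have : (1 : ℝ) / (2 * d) ≤ 1 := by
            rw [div_le_one (by linarith)]; linarith
          linarith
      calc _ ≤ quenched d ε ω n (z + vec a) * 1 :=
            mul_le_mul_of_nonneg_left hb (quenched_nonneg h0 h1 ω n _)
        _ ≤ _ := by rw [mul_one]; exact ih _
    calc _ ≤ ∑ _a : Arrow d, (2 * d : ℝ) ^ n := Finset.sum_le_sum fun a _ => this a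
      _ = (2 * d : ℝ) ^ (n + 1) := by
        rw [Finset.sum_const, Finset.card_univ, Fintype.card_prod, Fintype.card_fin,
          Fintype.card_bool, nsmul_eq_mul]
        push_cast
        ring

lemma measurable_quenched (ε : ℝ) (n : ℕ) : ∀ z, Measurable fun ω : Env d => quenched d ε ω n z := by
  induction n with
  | zero => intro z; unfold quenched; exact measurable_const
  | succ n ih =>
    intro z
    simp only [quenched_succ]
    refine Finset.measurable_sum _ fun a _ => (ih _).mul ?_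
    have h1 : Measurable fun b : Arrow d => if b = a then 1 - (2 * (d : ℝ) - 1) * ε else ε :=
      measurable_of_countable _
    exact h1.comp (measurable_pi_apply (z + vec a))

/-- Lower bound at sites which can be reached. -/
lemma quenched_nbr_ge [NeZero d] {ε : ℝ} (h0 : 0 < ε) (h1 : ε < 1 / (2 * d)) (ω : Env d) (n : ℕ)
    (z : Fin d → ℤ) (a : Arrow d) :
    ε * quenched d ε ω n (z + vec a) ≤ quenched d ε ω (n + 1) z := by
  rw [quenched_succ]
  have h2 := eps_le h1
  have hn := quenched_nonneg h0 h1 ω n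
  calc ε * quenched d ε ω n (z + vec a)
      ≤ quenched d ε ω n (z + vec a) *
        (if ω (z + vec a) = a then 1 - (2 * d - 1) * ε else ε) := by
        rw [mul_comm]
        refine mul_le_mul_of_nonneg_left ?_ (hn _)
        split_ifs <;> linarith
    _ ≤ _ := Finset.single_le_sum (f := fun a : Arrow d => quenched d ε ω n (z + vec a) *
        (if ω (z + vec a) = a then 1 - (2 * d - 1) * ε else ε))
        (fun b _ => mul_nonneg (hn _) (by split_ifs <;> linarith)) (Finset.mem_univ a)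

instance [NeZero d] : IsProbabilityMeasure (envLaw d) := by
  unfold envLaw; infer_instance

/-- Prescribing the arrows at all the neighbours of `x` has probability `(2d)^(-2d)`. -/
lemma envLaw_nbrs [NeZero d] (x : Fin d → ℤ) (g : Arrow d → Arrow d) :
    envLaw d {ω | ∀ a, ω (x + vec a) = g a} = ((2 * d : ℝ≥0∞) ^ (2 * d))⁻¹ := by
  classical
  have hinj : Function.Injective (fun a : Arrow d => x + vec a) := by
    intro a b hab
    exact vec_injective (add_left_cancel hab)
  set s : Finset (Fin d → ℤ) := Finset.univ.map ⟨fun a : Arrow d => x + vec a, hinj⟩ with hs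
  set ω₀ : Env d := fun y => if h : ∃ a, x + vec a = y then g h.choose
    else (⟨0, Nat.pos_of_ne_zero (NeZero.ne d)⟩, true) with hω₀
  have hω : ∀ a, ω₀ (x + vec a) = g a := by
    intro a
    have h : ∃ b, x + vec b = x + vec a := ⟨a, rfl⟩
    have h2 : h.choose = a := hinj h.choose_spec
    rw [hω₀]
    simp only
    rw [dif_pos h, h2]
  have hset : {ω : Env d | ∀ a, ω (x + vec a) = g a} = Set.pi (s : Set (Fin d → ℤ))
      (fun y => {ω₀ y}) := by
    ext ω
    simp only [Set.mem_ofPred_eq, Set.mem_pi, Set.mem_singleton_iff, hs, Finset.coe_map,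
      Finset.coe_univ, Set.image_univ, Set.mem_range, Function.Embedding.coeFn_mk]
    constructor
    · rintro h y ⟨a, rfl⟩
      rw [h, hω]
    · intro h a
      rw [h _ ⟨a, rfl⟩, hω]
  rw [hset, envLaw, Measure.infinitePi_pi _ (fun _ _ => measurableSet_singleton _)]
  have h1 : ∀ y ∈ s, (PMF.uniformOfFintype (Arrow d)).toMeasure {ω₀ y} = (2 * d : ℝ≥0∞)⁻¹ := by
    intro y _
    rw [PMF.toMeasure_apply_singleton _ _ (measurableSet_singleton _),
      PMF.uniformOfFintype_apply, Fintype.card_prod, Fintype.card_fin, Fintype.card_bool]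
    push_cast
    rw [mul_comm]
  rw [Finset.prod_congr rfl h1, Finset.prod_const, hs, Finset.card_map, Finset.card_univ,
    Fintype.card_prod, Fintype.card_fin, Fintype.card_bool, mul_comm d 2, ENNReal.inv_pow]

lemma ratio_bounds {q m δ : ℝ} (hq : 0 ≤ q) (hδ : δ < 1) (h : |q / m - 1| ≤ δ) :
    0 < m ∧ (1 - δ) * m ≤ q ∧ q ≤ (1 + δ) * m := by
  obtain ⟨h1, h2⟩ := abs_le.1 h
  have hm : 0 < m := by
    by_contra hm
    have : q / m ≤ 0 := div_nonpos_of_nonneg_of_nonpos hq (not_lt.1 hm)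
    linarith
  refine ⟨hm, ?_, ?_⟩
  · have : 1 - δ ≤ q / m := by linarith
    rwa [le_div_iff₀ hm] at this
  · have : q / m ≤ 1 + δ := by linarith
    rwa [div_le_iff₀ hm] at this

/-- The space-time point `(n + 1, x)` and its neighbours at time `n`. -/
def pt (n : ℕ) (x : Fin d → ℤ) : Option (Arrow d) → ℕ × (Fin d → ℤ)
  | none => (n + 1, x)
  | some a => (n, x + vec a)

/-- **Local fluctuations.** For every nonrandom kernel `m`, every time `n` and every site `x`, the
ratio `p_ω / m` differs from `1` by more than `(1 - 2dε)/4` with probability at least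
`(2d)^(-2d)/(2d+1)` at one of the `2d + 1` points `(n + 1, x)`, `(n, x ± e_i)`. -/
theorem local_fluctuation [NeZero d] {ε : ℝ} (h0 : 0 < ε) (h1 : ε < 1 / (2 * d))
    (m : ℕ → (Fin d → ℤ) → ℝ) (n : ℕ) (x : Fin d → ℤ) :
    ∃ k : Option (Arrow d), ((2 * d : ℝ≥0∞) ^ (2 * d) * (2 * d + 1))⁻¹ ≤
      envLaw d {ω | (1 - 2 * d * ε) / 4 <
        |quenched d ε ω (pt n x k).1 (pt n x k).2 / m (pt n x k).1 (pt n x k).2 - 1|} := by
  have hdpos : 0 < d := Nat.pos_of_ne_zero (NeZero.ne d)
  have hd1 : (1 : ℝ) ≤ d := by exact_mod_cast hdpos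
  have hg : 0 < 1 - 2 * d * ε := by
    have hd : (0 : ℝ) < 2 * d := by positivity
    rw [lt_div_iff₀ hd] at h1
    linarith
  by_contra hcon
  push Not at hcon
  set δ : ℝ := (1 - 2 * d * ε) / 4 with hδ
  set Bad : Option (Arrow d) → Set (Env d) := fun k => {ω | δ <
        |quenched d ε ω (pt n x k).1 (pt n x k).2 / m (pt n x k).1 (pt n x k).2 - 1|} with hBad
  have hbad : envLaw d (⋃ k, Bad k) < ((2 * d : ℝ≥0∞) ^ (2 * d))⁻¹ := by
    calc envLaw d (⋃ k, Bad k) ≤ ∑ k, envLaw d (Bad k) := measure_iUnion_fintype_le _ _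
      _ < ∑ _k : Option (Arrow d), ((2 * d : ℝ≥0∞) ^ (2 * d) * (2 * d + 1))⁻¹ :=
        ENNReal.sum_lt_sum_of_nonempty ⟨none, Finset.mem_univ _⟩ fun k _ => hcon k
      _ = ((2 * d : ℝ≥0∞) ^ (2 * d))⁻¹ := by
        rw [Finset.sum_const, Finset.card_univ, Fintype.card_option, Fintype.card_prod,
          Fintype.card_fin, Fintype.card_bool, nsmul_eq_mul]
        have e1 : ((d * 2 + 1 : ℕ) : ℝ≥0∞) = 2 * d + 1 := by push_cast; ring
        rw [e1, ENNReal.mul_inv (Or.inr (by finiteness)) (Or.inr (by positivity)), mul_comm,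
          mul_assoc, ENNReal.inv_mul_cancel (by positivity) (by finiteness), mul_one]
  have hex : ∀ g : Arrow d → Arrow d, ∃ ω : Env d, (∀ a, ω (x + vec a) = g a) ∧
      ∀ k, |quenched d ε ω (pt n x k).1 (pt n x k).2 / m (pt n x k).1 (pt n x k).2 - 1| ≤ δ := by
    intro g
    by_contra hno
    push Not at hno
    have hsub : {ω : Env d | ∀ a, ω (x + vec a) = g a} ⊆ ⋃ k, Bad k := by
      intro ω hω
      obtain ⟨k, hk⟩ := hno ω hω
      exact Set.mem_iUnion.2 ⟨k, hk⟩
    have := measure_mono (μ := envLaw d) hsub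
    rw [envLaw_nbrs] at this
    exact absurd hbad (not_lt.2 this)
  obtain ⟨ω₁, hω₁, hb₁⟩ := hex id
  obtain ⟨ω₀, hω₀, hb₀⟩ := hex (fun a => (a.1, !a.2))
  have hε2 : 2 * d * ε < 1 := by linarith
  have hδ1 : δ < 1 := by
    have : 0 < 2 * (d : ℝ) * ε := by positivity
    rw [hδ]; linarith
  have hδ0 : 0 < δ := by rw [hδ]; linarith
  have nb₁ := fun a : Arrow d => ratio_bounds (quenched_nonneg h0 h1 ω₁ n (x + vec a)) hδ1
    (hb₁ (some a))
  have nb₀ := fun a : Arrow d => ratio_bounds (quenched_nonneg h0 h1 ω₀ n (x + vec a)) hδ1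
    (hb₀ (some a))
  have t₁ := ratio_bounds (quenched_nonneg h0 h1 ω₁ (n + 1) x) hδ1 (hb₁ none)
  have t₀ := ratio_bounds (quenched_nonneg h0 h1 ω₀ (n + 1) x) hδ1 (hb₀ none)
  simp only [pt] at nb₁ nb₀ t₁ t₀
  set M := m (n + 1) x with hM
  set S := ∑ a : Arrow d, m n (x + vec a) with hS
  have hSpos : 0 < S := by
    refine Finset.sum_pos (fun a _ => (nb₁ a).1) ⟨(⟨0, hdpos⟩, true), Finset.mem_univ _⟩
  have q₁ : quenched d ε ω₁ (n + 1) x =
      (1 - (2 * d - 1) * ε) * ∑ a : Arrow d, quenched d ε ω₁ n (x + vec a) := by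
    rw [quenched_succ, Finset.mul_sum]
    refine Finset.sum_congr rfl fun a _ => ?_
    rw [if_pos (show ω₁ (x + vec a) = a from hω₁ a), mul_comm]
  have q₀ : quenched d ε ω₀ (n + 1) x =
      ε * ∑ a : Arrow d, quenched d ε ω₀ n (x + vec a) := by
    rw [quenched_succ, Finset.mul_sum]
    refine Finset.sum_congr rfl fun a _ => ?_
    have : ω₀ (x + vec a) ≠ a := by
      rw [hω₀ a]
      intro h
      have := congrArg Prod.snd h
      simp at this
    rw [if_neg this, mul_comm]
  have s₁ : (1 - δ) * S ≤ ∑ a : Arrow d, quenched d ε ω₁ n (x + vec a) := by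
    rw [hS, Finset.mul_sum]
    exact Finset.sum_le_sum fun a _ => (nb₁ a).2.1
  have s₀ : ∑ a : Arrow d, quenched d ε ω₀ n (x + vec a) ≤ (1 + δ) * S := by
    rw [hS, Finset.mul_sum]
    exact Finset.sum_le_sum fun a _ => (nb₀ a).2.2
  set A : ℝ := 1 - (2 * d - 1) * ε with hA
  have hApos : 0 < A := lt_of_lt_of_le h0 (eps_le h1)
  have u₁ : A * ((1 - δ) * S) ≤ (1 + δ) * M :=
    calc A * ((1 - δ) * S) ≤ A * ∑ a : Arrow d, quenched d ε ω₁ n (x + vec a) :=
          mul_le_mul_of_nonneg_left s₁ hApos.le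
      _ = quenched d ε ω₁ (n + 1) x := q₁.symm
      _ ≤ _ := t₁.2.2
  have u₀ : (1 - δ) * M ≤ ε * ((1 + δ) * S) :=
    calc (1 - δ) * M ≤ quenched d ε ω₀ (n + 1) x := t₀.2.1
      _ = ε * ∑ a : Arrow d, quenched d ε ω₀ n (x + vec a) := q₀
      _ ≤ _ := mul_le_mul_of_nonneg_left s₀ h0.le
  have v₁ : A * (1 - δ) ^ 2 * S ≤ (1 - δ) * (1 + δ) * M := by nlinarith
  have v₀ : (1 - δ) * (1 + δ) * M ≤ ε * (1 + δ) ^ 2 * S := by nlinarith
  have w : A * (1 - δ) ^ 2 ≤ ε * (1 + δ) ^ 2 := by
    have := v₁.trans v₀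
    exact le_of_mul_le_mul_right this hSpos
  have hAe : A - ε = 4 * δ := by rw [hA, hδ]; ring
  have hAe2 : A + ε ≤ 1 := by
    rw [hA]
    nlinarith
  have : (A - ε) * (1 + δ ^ 2) ≤ 2 * δ * (A + ε) := by nlinarith
  rw [hAe] at this
  nlinarith [mul_pos hδ0 hδ0]

lemma integrable_quenched [NeZero d] {ε : ℝ} (h0 : 0 < ε) (h1 : ε < 1 / (2 * d)) (n : ℕ)
    (z : Fin d → ℤ) : Integrable (fun ω => quenched d ε ω n z) (envLaw d) := by
  refine Integrable.of_bound (measurable_quenched ε n z).aestronglyMeasurable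
    ((2 * d : ℝ) ^ n) (Eventually.of_forall fun ω => ?_)
  rw [Real.norm_eq_abs, abs_of_nonneg (quenched_nonneg h0 h1 ω n z)]
  exact quenched_le h0 h1 ω n z

lemma averaged_pos_of [NeZero d] {ε : ℝ} (h0 : 0 < ε) (h1 : ε < 1 / (2 * d)) (n : ℕ)
    (z : Fin d → ℤ) (h : ∀ ω, ε ^ n ≤ quenched d ε ω n z) : 0 < averaged d ε n z := by
  have : ε ^ n ≤ averaged d ε n z := by
    calc ε ^ n = ∫ _ω, ε ^ n ∂(envLaw d) := by simp
      _ ≤ _ := integral_mono (integrable_const _) (integrable_quenched h0 h1 n z) h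
  exact lt_of_lt_of_le (pow_pos h0 n) this

lemma quenched_even [NeZero d] {ε : ℝ} (h0 : 0 < ε) (h1 : ε < 1 / (2 * d)) (ω : Env d) (k : ℕ) :
    ε ^ (2 * k) ≤ quenched d ε ω (2 * k) 0 ∧
      ∀ a : Arrow d, ε ^ (2 * k + 1) ≤ quenched d ε ω (2 * k + 1) (vec a) := by
  have step : ∀ k, ε ^ (2 * k) ≤ quenched d ε ω (2 * k) 0 →
      ∀ a : Arrow d, ε ^ (2 * k + 1) ≤ quenched d ε ω (2 * k + 1) (vec a) := by
    intro k hk a
    have h2 := quenched_nbr_ge h0 h1 ω (2 * k) (vec a) (a.1, !a.2)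
    have h3 : vec a + vec (a.1, !a.2) = 0 := by
      obtain ⟨i, s⟩ := a
      simp only [vec]
      rw [← Pi.single_add]
      cases s <;> simp
    rw [h3] at h2
    rw [pow_succ, mul_comm]
    exact (mul_le_mul_of_nonneg_left hk h0.le).trans h2
  induction k with
  | zero =>
    have hz : ε ^ (2 * 0) ≤ quenched d ε ω (2 * 0) 0 := by
      simp [quenched]
    exact ⟨hz, step 0 hz⟩
  | succ k ih =>
    have hk : ε ^ (2 * (k + 1)) ≤ quenched d ε ω (2 * (k + 1)) 0 := by
      have a : Arrow d := (⟨0, Nat.pos_of_ne_zero (NeZero.ne d)⟩, true)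
      have h2 := quenched_nbr_ge h0 h1 ω (2 * k + 1) 0 a
      rw [zero_add] at h2
      have e : 2 * (k + 1) = 2 * k + 1 + 1 := by ring
      rw [e, pow_succ, mul_comm]
      exact (mul_le_mul_of_nonneg_left (ih.2 a) h0.le).trans h2
    exact ⟨hk, step _ hk⟩

lemma enorm'_zero : enorm' (0 : Fin d → ℤ) = 0 := by simp [enorm']

lemma enorm'_vec (a : Arrow d) : enorm' (vec a) = 1 := by
  classical
  unfold enorm' vec
  rw [Real.sqrt_eq_one, Finset.sum_eq_single a.1]
  · rw [Pi.single_eq_same]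
    split_ifs <;> norm_num
  · intro b _ hb
    rw [Pi.single_eq_of_ne hb]
    norm_num
  · simp

/-- No nonrandom kernel is asymptotic to the quenched kernel in the sense of condition (ii). -/
theorem not_ratioToOne [NeZero d] {ε : ℝ} (h0 : 0 < ε) (h1 : ε < 1 / (2 * d))
    (m : ℕ → (Fin d → ℤ) → ℝ) : ¬ RatioToOne d ε m := by
  intro h
  have hg : 0 < (1 - 2 * d * ε) / 4 := by
    have hd : (0 : ℝ) < 2 * d := by
      have := Nat.pos_of_ne_zero (NeZero.ne d)
      positivity
    rw [lt_div_iff₀ hd] at h1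
    linarith
  have h2 := h 1 one_pos _ hg
  set c : ℝ≥0∞ := ((2 * d : ℝ≥0∞) ^ (2 * d) * (2 * d + 1))⁻¹ with hc
  have hcpos : 0 < c := by
    rw [hc]
    exact ENNReal.inv_pos.2 (by finiteness)
  have h3 := h2.eventually (gt_mem_nhds hcpos)
  obtain ⟨N, hN⟩ := eventually_atTop.1 h3
  obtain ⟨k, hk⟩ := local_fluctuation h0 h1 m (2 * N + 1) (0 : Fin d → ℤ)
  have hq : ∀ ω : Env d, ∀ n, ε ^ (2 * n) ≤ quenched d ε ω (2 * n) 0 := fun ω n =>
    (quenched_even h0 h1 ω n).1
  cases k with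
  | none =>
    have h4 := hN (2 * N + 1 + 1) (by omega)
    have hpos : 0 < averaged d ε (2 * N + 1 + 1) 0 := by
      refine averaged_pos_of h0 h1 _ _ fun ω => ?_
      have := hq ω (N + 1)
      rwa [show 2 * (N + 1) = 2 * N + 1 + 1 by ring] at this
    have h5 : enorm' (0 : Fin d → ℤ) ≤ 1 * Real.sqrt ((2 * N + 1 + 1 : ℕ) : ℝ) := by
      rw [enorm'_zero]; positivity
    exact absurd (lt_of_le_of_lt ((le_iSup (fun x : {x : Fin d → ℤ // enorm' x ≤
      1 * Real.sqrt ((2 * N + 1 + 1 : ℕ) : ℝ) ∧ 0 < averaged d ε (2 * N + 1 + 1) x} =>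
      envLaw d {ω | (1 - 2 * d * ε) / 4 < |quenched d ε ω (2 * N + 1 + 1) x /
        m (2 * N + 1 + 1) x - 1|}) ⟨0, h5, hpos⟩)) h4) (not_lt.2 hk)
  | some a =>
    have h4 := hN (2 * N + 1) (by omega)
    have hpos : 0 < averaged d ε (2 * N + 1) (0 + vec a) := by
      rw [zero_add]
      exact averaged_pos_of h0 h1 _ _ fun ω => (quenched_even h0 h1 ω N).2 a
    have h5 : enorm' (0 + vec a) ≤ 1 * Real.sqrt ((2 * N + 1 : ℕ) : ℝ) := by
      rw [zero_add, enorm'_vec, one_mul, Real.one_le_sqrt]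
      push_cast
      have : (0 : ℝ) ≤ N := Nat.cast_nonneg N
      linarith
    exact absurd (lt_of_le_of_lt ((le_iSup (fun x : {x : Fin d → ℤ // enorm' x ≤
      1 * Real.sqrt ((2 * N + 1 : ℕ) : ℝ) ∧ 0 < averaged d ε (2 * N + 1) x} =>
      envLaw d {ω | (1 - 2 * d * ε) / 4 < |quenched d ε ω (2 * N + 1) x /
        m (2 * N + 1) x - 1|}) ⟨0 + vec a, h5, hpos⟩)) h4) (not_lt.2 hk)

/-- For every dimension `d ≥ 1` and every `ε ∈ (0, 1/(2d))`:
(1) the model does not homogenize, since condition (ii) fails;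
(2) condition (ii) fails with every nonrandom kernel `m` in the place of `m₁`;
(3) quantitatively, for every nonrandom `m`, every time `n` and every site `x` one of the `2d + 1`
space-time points `(n + 1, x)`, `(n, x ± e_i)` satisfies
`μ(|p_ω / m - 1| > (1 - 2dε)/4) ≥ (2d)^(-2d)/(2d + 1)`. -/
theorem result : ∀ (d : ℕ) [NeZero d] (ε : ℝ), 0 < ε → ε < 1 / (2 * d) →
    ¬ Homogenizes d ε ∧
    (∀ m : ℕ → (Fin d → ℤ) → ℝ, ¬ RatioToOne d ε m) ∧
    ∀ (m : ℕ → (Fin d → ℤ) → ℝ) (n : ℕ) (x : Fin d → ℤ),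
      ((2 * d : ℝ≥0∞) ^ (2 * d) * (2 * d + 1))⁻¹ ≤ envLaw d {ω | (1 - 2 * d * ε) / 4 <
        |quenched d ε ω (n + 1) x / m (n + 1) x - 1|} ∨
      ∃ a : Arrow d, ((2 * d : ℝ≥0∞) ^ (2 * d) * (2 * d + 1))⁻¹ ≤
        envLaw d {ω | (1 - 2 * d * ε) / 4 <
          |quenched d ε ω n (x + vec a) / m n (x + vec a) - 1|} := by
  intro d _ ε h0 h1
  refine ⟨fun h => not_ratioToOne h0 h1 _ h.2, fun m => not_ratioToOne h0 h1 m, ?_⟩
  intro m n x
  obtain ⟨k, hk⟩ := local_fluctuation h0 h1 m n x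
  cases k with
  | none => exact Or.inl hk
  | some a => exact Or.inr ⟨a, hk⟩

end Pool.Agent.Results.MP_31ab2b_pr.NeverHomogenizes
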